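import Pool.Agent.MP_77f003_co.H49.USpec

/-!
A graph that is not accessible has an infinite chain of nested smallest cuts through an edge.
-/

namespace Pool.Agent.MP_77f003_co.H49

open SimpleGraph Filter

variable {V : Type} {G : SimpleGraph V} [Fact G.Connected] [G.LocallyFinite]

/-- Every end contains a proper sequence with bounded steps. -/
theorem chain_ray {s} (hs : s ∈ G.end) : ∃ α, QR G α ∧ ∀ X : Finset V,
    ∀ᶠ n in atTop, ∃ hn : α n ∉ (X : Set V), s (Opposite.op X) = G.componentComplMk hn := by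
  obtain ⟨o⟩ := (Fact.out : G.Connected).nonempty
  have hev : ∀ n : ℕ, ∀ᶠ M in hyperfilter ℕ, n ≤ M := fun n =>
    Nat.hyperfilter_le_atTop (eventually_ge_atTop n)
  choose x hx ex using fun r =>
    ComponentCompl.exists_eq_mk (K := (ball G o r : Set V)) (s (Opposite.op (ball G o r)))
  have hd : ∀ r, r < G.dist o (x r) := fun r => not_le.1 fun h => hx r (mem_ball.2 h)
  choose q q0 q1 q2 using fun r => exists_geo' (G := G) o (x r)
  have q3 : ∀ r i, i ≤ G.dist o (x r) → G.dist o (q r i) = i := fun r i hi => by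
    have := q2 r 0 i (Nat.zero_le _) hi
    rwa [q0] at this
  have key : ∀ i, ∃ y, ∀ᶠ M in hyperfilter ℕ, q M i = y := by
    intro i
    obtain ⟨y, -, hy⟩ := (Ultrafilter.eventually_exists_mem_iff (f := hyperfilter ℕ)
      (P := fun y M => q M i = y) (finite_ball (G := G) o i)).1 (by
        filter_upwards [hev i] with M hM
        exact ⟨_, (q3 M i (hM.trans (hd M).le)).le, rfl⟩)
    exact ⟨y, hy⟩
  choose L hL using key
  have l1 : ∀ i, G.dist o (L i) = i := fun i => by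
    obtain ⟨M, h1, h2⟩ := ((hL i).and (hev i)).exists
    rw [← h1, q3 M i (h2.trans (hd M).le)]
  refine ⟨L, ⟨⟨1, fun i => ?_⟩, fun y t => ?_⟩, fun X => ?_⟩
  · obtain ⟨M, h1, h2, h3⟩ := ((hL i).and ((hL (i + 1)).and (hev (i + 1)))).exists
    rw [← h1, ← h2, q2 M i (i + 1) (by omega) (h3.trans (hd M).le)]
    omega
  · filter_upwards [eventually_ge_atTop (t + G.dist o y)] with n hn
    have := tri (G := G) o y (L n)
    have := l1 n
    omega
  · obtain ⟨r, hr⟩ := (X.finite_toSet.image (G.dist o)).bddAbove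
    filter_upwards [eventually_gt_atTop r] with n hn
    obtain ⟨M, h1, h2⟩ := ((hL n).and (hev n)).exists
    have hX : X ⊆ ball G o M := fun z hz => mem_ball.2 ((hr ⟨z, hz, rfl⟩).trans (by omega))
    have hl : Lk G (X : Set V)ᶜ (x M) (L n) := by
      refine Lk.geo fun z hz hz' => ?_
      have e1 := hr ⟨z, hz', rfl⟩
      have e2 := q2 M n _ (h2.trans (hd M).le) le_rfl
      have e3 := tri (G := G) o z (x M)
      have e4 := hd M
      rw [q1, h1, dcomm] at e2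
      rw [dcomm z] at e3
      omega
    exact ⟨hl.right, (end_hom_mk_of_mk G hs (CategoryTheory.opHomOfLE hX) (hx M)
      (ex M).symm).trans (mk_eq_of_lk hl)⟩

/-- The cuts that are smallest at almost every scale. -/
def chainFam (G : SimpleGraph V) : Set (Set V) :=
  {A | ∃ α β, QR G α ∧ QR G β ∧ ∀ᶠ M in hyperfilter ℕ, MinC G M α β A}

theorem chain_nfam : NFam G (chainFam G) := by
  refine ⟨?_, ?_, ?_⟩
  · rintro A ⟨α, β, h1, h2, h3⟩
    exact ⟨β, α, h2, h1, h3.mono fun _ h => h.compl⟩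
  · rintro A ⟨α, β, h1, h2, h3⟩ B ⟨α', β', h4, h5, h6⟩
    have hf := h3.exists.choose_spec.1.1
    obtain ⟨m, hm⟩ := ((hf.prod hf).image fun p => G.dist p.1.1 p.2.1).bddAbove
    obtain ⟨M, e1, e2, e3⟩ := (h3.and (h6.and
      (Nat.hyperfilter_le_atTop (eventually_ge_atTop (m + 1))))).exists
    exact e1.nested e2 h1 h2 h4 h5 fun p hp q hq =>
      (Nat.succ_le_succ (hm ⟨(p, q), ⟨hp, hq⟩, rfl⟩)).trans e3
  · rintro A ⟨α, β, h1, h2, h3⟩ φ
    exact ⟨_, _, h1.map φ.symm, h2.map φ.symm, h3.mono fun _ h => h.pre φ⟩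

theorem chain_eff {A : Set V} (h : A ∈ chainFam G) : Eff G A ∧ Tight G A := by
  obtain ⟨α, β, h1, h2, h3⟩ := h
  obtain ⟨M, h⟩ := h3.exists
  exact ⟨⟨α, β, h1, h2, h.1, fun B hB => by have := h.2 B hB; omega⟩, h.conn h1, h.compl.conn h2⟩

omit [G.LocallyFinite] in
theorem chain_move (ht : VT G) (o : V) {α β : ℕ → V} {A : Set V} (h : Sp G α β A) :
    ∃ (φ : G ≃g G) (y : V), G.dist o y ≤ 1 ∧ o ∈ φ ⁻¹' A ∧ y ∉ φ ⁻¹' A := by
  obtain ⟨n, h1, h2⟩ := (h.2.1.and h.2.2).exists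
  obtain ⟨p, hp, -⟩ := cross_geo (G := G) h1 h2
  obtain ⟨φ, hφ⟩ := ht o p.1
  refine ⟨φ, φ.symm p.2, ?_, by simpa [hφ] using hp.1, by simpa using hp.2.1⟩
  have := hp.2.2
  rwa [← dist_iso φ.symm, ← hφ, RelIso.symm_apply_apply] at this

theorem chain_exists (ht : VT G) {α β : ℕ → V} (hα : QR G α) (hβ : QR G β) {B : Set V}
    (h : Sp G α β B) : ∃ A ∈ chainFam G, Sp G α β A := by
  obtain ⟨o⟩ := (Fact.out : G.Connected).nonempty
  choose A hA using fun M => exists_minC M h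
  choose φ y h1 h2 h3 using fun M => chain_move ht o (hA M).1
  have hk : ∀ M M', (cb G 1 (A M)).ncard ≤ (cb G 1 (A M')).ncard := fun M M' => by
    have := (hA M).2 _ (hA M').1
    omega
  obtain ⟨C, -, hC⟩ := (Ultrafilter.eventually_exists_mem_iff (f := hyperfilter ℕ)
    (P := fun C M => φ M ⁻¹' A M = C) ((finite_ball (G := G) o 1).biUnion fun y _ =>
      finite_tight (G := G) (cb G 1 (A 0)).ncard o y ∅)).1 (Eventually.of_forall fun M =>
        ⟨_, Set.mem_biUnion (h1 M) ⟨Tight.pre ⟨(hA M).conn hα, (hA M).compl.conn hβ⟩ _, h2 M, h3 M,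
          by simp, (cb_pre' _ 1 _).2 (hA M).1.1, by simpa [(cb_pre' _ 1 _).1] using hk M 0⟩, rfl⟩)
  obtain ⟨M₀, e⟩ := hC.exists
  refine ⟨A M₀, ⟨α, β, hα, hβ, hC.mono fun M hM => ⟨(hA M₀).1, fun D hD => ?_⟩⟩, (hA M₀).1⟩
  have e1 : ∀ j, (cb G j (A M₀)).ncard = (cb G j (A M)).ncard := fun j => by
    rw [← (cb_pre' (φ M₀) j _).1, e, ← hM, (cb_pre' _ _ _).1]
  rw [e1, e1]
  exact (hA M).2 D hD

theorem chain_large (ht : VT G) (hn : ¬ Acc G) (k : ℕ) :
    ∃ A ∈ chainFam G, k < (cb G 1 A).ncard ∧ ∃ α β, Sp G α β A := by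
  classical
  unfold Acc at hn
  push Not at hn
  obtain ⟨s, s1, t, t1, hst, hk⟩ := hn k
  obtain ⟨α, hα, s2⟩ := chain_ray s1
  obtain ⟨β, hβ, t2⟩ := chain_ray t1
  obtain ⟨⟨X⟩, x2⟩ := Function.ne_iff.1 hst
  let C : G.ComponentCompl X := s (Opposite.op X)
  have hsub : cb G 1 (C : Set V) ⊆
      ↑(X.biUnion fun x => (ball G x 1).image fun y => (y, x)) := by
    rintro ⟨y, x⟩ ⟨⟨h1, h2⟩, h3, h4⟩
    have hx : x ∈ X := by
      by_contra hx
      exact h3 ⟨hx, (mk_eq_of_lk (Lk.near (S := (X : Set V)ᶜ) h4 h1 hx)).symm.trans h2⟩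
    simp only [Finset.coe_biUnion, Finset.coe_image, Set.mem_iUnion]
    exact ⟨x, hx, y, mem_ball.2 (by rwa [dcomm]), rfl⟩
  obtain ⟨A, hA, hs⟩ := chain_exists ht hα hβ (B := (C : Set V))
    ⟨(Finset.finite_toSet _).subset hsub, (s2 X).mono fun n ⟨h1, h2⟩ => ⟨h1, h2.symm⟩,
      (t2 X).mono fun n ⟨_, h2⟩ ⟨_, h4⟩ => x2 (h4.symm.trans h2.symm)⟩
  refine ⟨A, hA, not_le.1 fun h => ?_, α, β, hs⟩
  have e := hk (hs.1.toFinset.image Prod.snd)
    (Finset.card_image_le.trans (by rwa [← Set.ncard_eq_toFinset_card _ hs.1]))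
  obtain ⟨n, ⟨_, e1⟩, ⟨_, e2⟩, e3, e4⟩ := ((s2 (hs.1.toFinset.image Prod.snd)).and
    ((t2 (hs.1.toFinset.image Prod.snd)).and (hs.2.1.and hs.2.2))).exists
  obtain ⟨p, p1, p2, -⟩ := (lk_of_mk_eq (e1.symm.trans (e.trans e2))).cross e3 e4
  exact p2 (Finset.mem_image_of_mem _ (hs.1.mem_toFinset.2 p1))

theorem chainSpec : ChainSpec := by
  intro V G _ _ ht hn
  obtain ⟨o⟩ := (Fact.out : G.Connected).nonempty
  have N := chain_nfam (G := G)
  obtain ⟨v, hv, hT⟩ : ∃ v, G.dist o v ≤ 1 ∧ {A ∈ chainFam G | o ∈ A ∧ v ∉ A}.Infinite := by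
    by_contra hc
    push Not at hc
    obtain ⟨k, hk⟩ := (((finite_ball (G := G) o 1).biUnion hc).image
      fun A => (cb G 1 A).ncard).bddAbove
    obtain ⟨A, a1, a2, α, β, a3⟩ := chain_large ht hn k
    obtain ⟨φ, y, h1, h2, h3⟩ := chain_move ht o a3
    have := hk ⟨_, Set.mem_biUnion h1 ⟨N.inv A a1 φ, h2, h3⟩, rfl⟩
    simp only [(cb_pre' _ _ _).1] at this
    omega
  let f : ℕ → Set V := fun n => hT.natEmbedding _ n
  have hf : ∀ n, f n ∈ chainFam G ∧ o ∈ f n ∧ v ∉ f n := fun n => (hT.natEmbedding _ n).2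
  have ha : G.Adj o v := dist_eq_one_iff_adj.1 <| le_antisymm hv <| Nat.pos_of_ne_zero fun h =>
    (hf 0).2.2 (eq_of_dist h ▸ (hf 0).2.1)
  obtain ⟨g, hg | hg⟩ := exists_increasing_or_nonincreasing_subseq (· < ·) f
  · exact ⟨_, o, v, fun n => f (g n), N, fun _ => chain_eff, ha, hg, fun n => hf _⟩
  · refine ⟨_, v, o, fun n => (f (g n))ᶜ, N, fun _ => chain_eff, ha.symm, fun m n h => ?_,
      fun n => ⟨N.compl _ (hf _).1, (hf _).2.2, fun h => h (hf _).2.1⟩⟩
    have ne : f (g m) ≠ f (g n) := fun e =>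
      h.ne (g.injective ((hT.natEmbedding _).injective (Subtype.ext e)))
    refine compl_lt_compl_iff_lt.2 (lt_of_le_of_ne ?_ ne.symm)
    rcases N.nest _ (hf (g m)).1 _ (hf (g n)).1 with e | e | e | e
    · exact absurd (lt_of_le_of_ne e ne) (hg m n h)
    · exact absurd (hf _).2.1 (e (hf _).2.1)
    · exact absurd (e (hf _).2.2) (hf _).2.2
    · exact Set.compl_subset_compl.1 e

end Pool.Agent.MP_77f003_co.H49
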